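import Mathlib
import Pool.Agent.R805.WCO.Ex

/-!
# A supercyclic composition operator on smooth functions which is not chaotic (MP_fcbc3e_an)

On `Ω = (ℝ² \ {0}) × ℝ` there is a smooth self-map `ψ` (even a volume preserving diffeomorphism of
`Ω`) for which `f ↦ f ∘ ψ` is supercyclic (even hypercyclic) on `C^∞(Ω)`, but every periodic vector
`f` satisfies `f(0,1,0) = f(1,0,0)`, so that the periodic vectors are not dense.

The proof is due to helper286.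
-/

set_option autoImplicit false

namespace Pool.Agent.Results.MP_fcbc3e_an.SupercyclicNotChaotic

open Set Filter Topology
open scoped ContDiff

variable {d : ℕ} {𝕂 : Type} [RCLike 𝕂]

/-- The elements of `C^∞(Ω, 𝕂)`: functions which are smooth on the open set `Ω` (their values
outside `Ω` play no role). -/
def CInf (Ω : Set (EuclideanSpace ℝ (Fin d))) : Set (EuclideanSpace ℝ (Fin d) → 𝕂) :=
  {f | ContDiffOn ℝ ∞ f Ω}

/-- The partial derivative `∂_{α 0} ⋯ ∂_{α (k-1)} f (x)` of order `k`. -/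
noncomputable def partialD (k : ℕ) (α : Fin k → Fin d) (f : EuclideanSpace ℝ (Fin d) → 𝕂)
    (x : EuclideanSpace ℝ (Fin d)) : 𝕂 :=
  iteratedFDeriv ℝ k f x (fun i => EuclideanSpace.single (α i) (1 : ℝ))

/-- `‖f - g‖_{L,n} < ε`: all partial derivatives of `f` and `g` of order at most `n` differ by less
than `ε` at all points of `L`. -/
def Near (L : Set (EuclideanSpace ℝ (Fin d))) (n : ℕ) (ε : ℝ)
    (f g : EuclideanSpace ℝ (Fin d) → 𝕂) : Prop :=
  ∀ k ≤ n, ∀ α : Fin k → Fin d, ∀ x ∈ L, ‖partialD k α f x - partialD k α g x‖ < ε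

/-- The weighted composition operator `C_{w,ψ} f = w · (f ∘ ψ)`. -/
def wco (w : EuclideanSpace ℝ (Fin d) → 𝕂)
    (ψ : EuclideanSpace ℝ (Fin d) → EuclideanSpace ℝ (Fin d))
    (f : EuclideanSpace ℝ (Fin d) → 𝕂) : EuclideanSpace ℝ (Fin d) → 𝕂 :=
  fun x => w x * f (ψ x)

/-- Supercyclic: the projective orbit `{λ T^N g}` of some `g ∈ C^∞(Ω)` is dense in `C^∞(Ω)`. -/
def Supercyclic (Ω : Set (EuclideanSpace ℝ (Fin d)))
    (T : (EuclideanSpace ℝ (Fin d) → 𝕂) → (EuclideanSpace ℝ (Fin d) → 𝕂)) : Prop :=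
  ∃ g ∈ CInf (𝕂 := 𝕂) Ω, ∀ f ∈ CInf (𝕂 := 𝕂) Ω, ∀ L, IsCompact L → L ⊆ Ω → ∀ (n : ℕ) (ε : ℝ),
    0 < ε → ∃ (N : ℕ) (c : 𝕂), Near L n ε (fun x => c * (T^[N] g) x) f

/-- Transitive: any two basic open sets of `C^∞(Ω)` are connected by some iterate of `T`. -/
def Transitive (Ω : Set (EuclideanSpace ℝ (Fin d)))
    (T : (EuclideanSpace ℝ (Fin d) → 𝕂) → (EuclideanSpace ℝ (Fin d) → 𝕂)) : Prop :=
  ∀ f₁ ∈ CInf (𝕂 := 𝕂) Ω, ∀ f₂ ∈ CInf (𝕂 := 𝕂) Ω, ∀ L, IsCompact L → L ⊆ Ω → ∀ (n : ℕ) (ε : ℝ),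
    0 < ε → ∃ N : ℕ, ∃ g ∈ CInf (𝕂 := 𝕂) Ω, Near L n ε g f₁ ∧ Near L n ε (T^[N] g) f₂

/-- Chaotic: transitive, and the periodic vectors (`T^N g = g` on `Ω` for some `N ≥ 1`) are dense
in `C^∞(Ω)`. -/
def Chaotic (Ω : Set (EuclideanSpace ℝ (Fin d)))
    (T : (EuclideanSpace ℝ (Fin d) → 𝕂) → (EuclideanSpace ℝ (Fin d) → 𝕂)) : Prop :=
  Transitive Ω T ∧
  ∀ f ∈ CInf (𝕂 := 𝕂) Ω, ∀ L, IsCompact L → L ⊆ Ω → ∀ (n : ℕ) (ε : ℝ), 0 < ε →
    ∃ g ∈ CInf (𝕂 := 𝕂) Ω, (∃ N : ℕ, 1 ≤ N ∧ ∀ x ∈ Ω, (T^[N] g) x = g x) ∧ Near L n ε g f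

open Pool.Agent.R805.WCO

lemma wco_iterate (ψ : EuclideanSpace ℝ (Fin d) → EuclideanSpace ℝ (Fin d)) (N : ℕ)
    (g : EuclideanSpace ℝ (Fin d) → 𝕂) : (wco (fun _ => (1 : 𝕂)) ψ)^[N] g = fun x => g (ψ^[N] x) := by
  induction N with
  | zero => rfl
  | succ N ih =>
    rw [Function.iterate_succ_apply', ih]
    funext x
    simp only [wco, one_mul]
    rw [← Function.iterate_succ_apply]

/-- `ψ` is run-away -/
lemma runaway (L : Set (E 3)) (hL : IsCompact L) (hLΩ : L ⊆ Om) :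
    ∃ n, Disjoint (psi^[n] '' L) L := by
  rcases L.eq_empty_or_nonempty with hem | hne
  · exact ⟨0, by simp [hem]⟩
  -- a lower bound for `max |x| |y|` and an upper bound for all the coordinates
  have hcont : Continuous fun v : E 3 => max |v 0| |v 1| := by fun_prop
  obtain ⟨v₀, hv₀, hmin⟩ := hL.exists_isMinOn hne hcont.continuousOn
  have hδ : 0 < max |v₀ 0| |v₀ 1| := by
    rcases hLΩ hv₀ with h | h
    · exact lt_max_of_lt_left (abs_pos.2 h)
    · exact lt_max_of_lt_right (abs_pos.2 h)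
  set δ := max |v₀ 0| |v₀ 1| with hδdef
  obtain ⟨r, hr⟩ := hL.isBounded.subset_closedBall 0
  set R : ℝ := max (max r (1 / δ)) 1 with hR
  have hR1 : 1 ≤ R := le_max_right _ _
  have hRδ : 1 / R ≤ δ := by
    have h1 : 1 / δ ≤ R := le_trans (le_max_right _ _) (le_max_left _ _)
    rw [div_le_iff₀ hδ] at h1
    rw [div_le_iff₀ (by linarith)]
    linarith
  have hup : ∀ v ∈ L, ∀ i, |v i| ≤ R := by
    intro v hv i
    have h1 : ‖v‖ ≤ r := by
      have := hr hv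
      rwa [mem_closedBall_zero_iff] at this
    have h2 : |v i| ≤ ‖v‖ := by
      have := PiLp.norm_apply_le v i
      rwa [Real.norm_eq_abs] at this
    exact h2.trans (h1.trans (le_trans (le_max_left _ _) (le_max_left _ _)))
  have hlow : ∀ v ∈ L, 1 / R ≤ |v 0| ∨ 1 / R ≤ |v 1| := by
    intro v hv
    have h1 : δ ≤ max |v 0| |v 1| := hmin hv
    exact le_max_iff.1 (hRδ.trans h1)
  -- choice of `n`
  set ℓ : ℝ := Real.logb 2 R with hℓ
  have hℓ0 : 0 ≤ ℓ := Real.logb_nonneg (by norm_num) hR1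
  obtain ⟨A, hA1, hA2⟩ := HH_self (4 * ℓ + 1) (2 * R + 8 * R ^ 4) (by linarith)
  set n : ℕ := ⌈A + 2 * ℓ⌉₊ with hn
  have hR4 : 1 ≤ R ^ 4 := one_le_pow₀ hR1
  have hA0 : 0 ≤ A := by linarith
  have hn1 : A + 2 * ℓ ≤ n := Nat.le_ceil _
  have hn2 : (n : ℝ) ≤ A + 2 * ℓ + 1 := (Nat.ceil_lt_add_one (by linarith)).le
  have h2n : (n : ℝ) < 2 ^ n := by exact_mod_cast Nat.lt_two_pow_self
  have h2n' : 8 * R ^ 4 < 2 ^ n := by linarith
  have hpow : (0 : ℝ) < 2 ^ n := by positivity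
  refine ⟨n, ?_⟩
  rw [Set.disjoint_left]
  rintro _ ⟨v, hv, rfl⟩ hv'
  obtain ⟨e0, e1, e2⟩ := iter_psi n v
  set w := psi^[n] v with hw
  have hR0 : 0 < R := by linarith
  have hRR : R * R < 2 ^ n := by
    have : R * R ≤ R ^ 4 := by nlinarith [mul_self_nonneg (R * R - 1), mul_self_nonneg R]
    linarith
  have x1 : |v 0| ≤ R / 2 ^ n := by
    have h1 := hup w hv' 0
    rw [e0, abs_mul, abs_of_pos hpow] at h1
    rw [le_div_iff₀ hpow]
    linarith
  have hsmall : R / 2 ^ n < 1 / R := by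
    rw [div_lt_div_iff₀ hpow hR0]
    linarith
  have y1 : 1 / R ≤ |v 1| := by
    rcases hlow v hv with h | h
    · linarith
    · exact h
  have y2 : |w 1| ≤ R / 2 ^ n := by
    rw [e1, abs_div, abs_of_pos hpow]
    exact div_le_div_of_nonneg_right (hup v hv 1) hpow.le
  have x2 : 1 / R ≤ |w 0| := by
    rcases hlow w hv' with h | h
    · exact h
    · linarith
  have hw0 : w 0 ≠ 0 := by
    intro h
    rw [h, abs_zero] at x2
    have : 0 < 1 / R := by positivity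
    linarith
  have key : ∀ a b : ℝ, |a| ≤ R / 2 ^ n → 1 / R ≤ |b| → 3 * a ^ 2 ≤ b ^ 2 := by
    intro a b ha hb
    rw [← sq_abs a, ← sq_abs b]
    have h1 : |a| ^ 2 ≤ (R / 2 ^ n) ^ 2 := pow_le_pow_left₀ (abs_nonneg _) ha 2
    have h2 : (1 / R) ^ 2 ≤ |b| ^ 2 := pow_le_pow_left₀ (by positivity) hb 2
    have h3 : 3 * (R / 2 ^ n) ^ 2 ≤ (1 / R) ^ 2 := by
      rw [div_pow, div_pow, one_pow, mul_div_assoc', div_le_div_iff₀ (by positivity) (by positivity)]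
      have h4 : (2 : ℝ) ^ n ≤ (2 ^ n) ^ 2 := by
        have : (1 : ℝ) ≤ 2 ^ n := one_le_pow₀ (by norm_num)
        nlinarith
      nlinarith
    linarith
  have s0 : sg (v 0) (v 1) = 0 := sg_zero (key _ _ x1 y1)
  have s1 : sg (2 ^ n * v 0) (v 1 / 2 ^ n) = 1 := by
    rw [← e0, ← e1]
    exact sg_one hw0 (key _ _ y2 x2)
  rw [s0, s1, sub_zero, mul_one] at e2
  -- the size of `t`
  set t := -Real.logb 2 |v 0 * v 1| with ht
  have hv0 : v 0 ≠ 0 := by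
    intro h
    rw [h, mul_zero] at e0
    exact hw0 e0
  have x3 : 1 / (R * 2 ^ n) ≤ |v 0| := by
    rw [e0, abs_mul, abs_of_pos hpow] at x2
    rw [div_le_iff₀ (by positivity)]
    rw [div_le_iff₀ hR0] at x2
    nlinarith
  have hprod1 : |v 0 * v 1| ≤ R ^ 2 / 2 ^ n := by
    rw [abs_mul]
    calc |v 0| * |v 1| ≤ (R / 2 ^ n) * R :=
          mul_le_mul x1 (hup v hv 1) (abs_nonneg _) (by positivity)
      _ = R ^ 2 / 2 ^ n := by ring
  have hprod2 : 1 / (R ^ 2 * 2 ^ n) ≤ |v 0 * v 1| := by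
    rw [abs_mul]
    calc 1 / (R ^ 2 * 2 ^ n) = (1 / (R * 2 ^ n)) * (1 / R) := by
          field_simp
      _ ≤ |v 0| * |v 1| := mul_le_mul x3 y1 (by positivity) (abs_nonneg _)
  have hprod0 : 0 < |v 0 * v 1| := lt_of_lt_of_le (by positivity) hprod2
  have hlog2n : Real.logb 2 ((2 : ℝ) ^ n) = n := by
    rw [Real.logb_pow, Real.logb_self_eq_one (by norm_num), mul_one]
  have t1 : n - 2 * ℓ ≤ t := by
    have h1 := Real.logb_le_logb_of_le (b := 2) (by norm_num) hprod0 hprod1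
    rw [Real.logb_div (by positivity) (by positivity), Real.logb_pow, hlog2n] at h1
    push_cast at h1
    rw [ht]
    linarith
  have t2 : t ≤ n + 2 * ℓ := by
    have h1 := Real.logb_le_logb_of_le (b := 2) (by norm_num) (by positivity) hprod2
    rw [one_div, Real.logb_inv, Real.logb_mul (by positivity) (by positivity), Real.logb_pow,
      hlog2n] at h1
    push_cast at h1
    rw [ht]
    linarith
  have hHt := hA2 t (by linarith) (by linarith)
  rw [hHt] at e2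
  have b1 := hup w hv' 2
  have b2 := hup v hv 2
  rw [abs_le] at b1 b2
  linarith [b1.1, b1.2, b2.1, b2.2]

/-- For every `N ≥ 1` there are arbitrarily large multiples `k` of `N` with `HH k = 0`. -/
lemma frequently_zero (N : ℕ) (hN : 1 ≤ N) : ∃ᶠ k : ℕ in atTop, N ∣ k ∧ HH k = 0 := by
  rw [Filter.frequently_atTop]
  intro a
  obtain ⟨A, hA1, hA2⟩ := HH_zero N a (Nat.cast_nonneg N)
  have hA0 : 0 ≤ A := le_trans (Nat.cast_nonneg a) hA1
  have hN0 : (0 : ℝ) < N := by exact_mod_cast hN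
  set m : ℕ := ⌈A / N⌉₊ with hm
  have h1 : A / N ≤ m := Nat.le_ceil _
  have h2 : (m : ℝ) < A / N + 1 := Nat.ceil_lt_add_one (by positivity)
  rw [div_le_iff₀ hN0] at h1
  have h3 : (m : ℝ) * N ≤ A + N := by
    have : (m : ℝ) * N ≤ (A / N + 1) * N := mul_le_mul_of_nonneg_right h2.le hN0.le
    calc (m : ℝ) * N ≤ (A / N + 1) * N := this
      _ = A + N := by field_simp
  refine ⟨m * N, ?_, Dvd.intro_left _ rfl, ?_⟩
  · have : (a : ℝ) ≤ ((m * N : ℕ) : ℝ) := by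
      push_cast
      linarith
    exact_mod_cast this
  · apply hA2
    · push_cast
      exact h1
    · push_cast
      exact h3

/-- the point `(a, b, 0)` -/
noncomputable def pt (a b : ℝ) : E 3 := !₂[a, b, 0]

lemma periodic_eq (g : E 3 → 𝕂) (hg : ContDiffOn ℝ ∞ g Om) (N : ℕ) (hN : 1 ≤ N)
    (hper : ∀ x ∈ Om, g (psi^[N] x) = g x) : g (pt 0 1) = g (pt 1 0) := by
  have hiter : ∀ m : ℕ, ∀ x ∈ Om, g (psi^[m * N] x) = g x := by
    intro m
    induction m with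
    | zero => intro x _; simp
    | succ m ih =>
      intro x hx
      rw [Nat.succ_mul, Function.iterate_add_apply]
      rw [ih _ (mapsTo_psi.iterate N hx), hper x hx]
  have hpt : ∀ k : ℕ, HH k = 0 → psi^[k] (pt ((2 : ℝ) ^ k)⁻¹ 1) = pt 1 ((2 : ℝ) ^ k)⁻¹ := by
    intro k hk
    obtain ⟨e0, e1, e2⟩ := iter_psi k (pt ((2 : ℝ) ^ k)⁻¹ 1)
    have c0 : (pt ((2 : ℝ) ^ k)⁻¹ 1) 0 = ((2 : ℝ) ^ k)⁻¹ := by simp [pt]
    have c1 : (pt ((2 : ℝ) ^ k)⁻¹ 1) 1 = 1 := by simp [pt]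
    have c2 : (pt ((2 : ℝ) ^ k)⁻¹ 1) 2 = 0 := by simp [pt]
    apply ext3
    · rw [e0, c0]
      simp [pt]
    · rw [e1, c1]
      simp [pt]
    · rw [e2, c0, c1, c2]
      have : -Real.logb 2 |((2 : ℝ) ^ k)⁻¹ * 1| = k := by
        rw [mul_one, abs_of_pos (by positivity), Real.logb_inv, Real.logb_pow,
          Real.logb_self_eq_one (by norm_num)]
        ring
      rw [this, hk]
      simp [pt]
  have hmem1 : pt 0 1 ∈ Om := Or.inr (by simp [pt])
  have hmem2 : pt 1 0 ∈ Om := Or.inl (by simp [pt])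
  have hc : Continuous fun a : ℝ => pt a 1 := by
    unfold pt
    fun_prop
  have hc' : Continuous fun a : ℝ => pt 1 a := by
    unfold pt
    fun_prop
  have hlim : Tendsto (fun k : ℕ => ((2 : ℝ) ^ k)⁻¹) atTop (𝓝 0) := by
    have h1 : Tendsto (fun k : ℕ => ((1 : ℝ) / 2) ^ k) atTop (𝓝 0) :=
      tendsto_pow_atTop_nhds_zero_of_lt_one (by norm_num) (by norm_num)
    refine h1.congr fun k => ?_
    rw [one_div, inv_pow]
  have t1 : Tendsto (fun k : ℕ => g (pt ((2 : ℝ) ^ k)⁻¹ 1)) atTop (𝓝 (g (pt 0 1))) := by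
    have h1 : ContinuousAt g (pt 0 1) := hg.continuousOn.continuousAt (isOpen_Om.mem_nhds hmem1)
    exact h1.tendsto.comp ((hc.tendsto 0).comp hlim)
  have t2 : Tendsto (fun k : ℕ => g (pt 1 ((2 : ℝ) ^ k)⁻¹)) atTop (𝓝 (g (pt 1 0))) := by
    have h1 : ContinuousAt g (pt 1 0) := hg.continuousOn.continuousAt (isOpen_Om.mem_nhds hmem2)
    exact h1.tendsto.comp ((hc'.tendsto 0).comp hlim)
  by_contra hne
  have t3 := (t1.sub t2).eventually_ne (sub_ne_zero.2 hne)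
  obtain ⟨k, ⟨⟨m, hm⟩, hk⟩, h3⟩ := ((frequently_zero N hN).and_eventually t3).exists
  apply h3
  rw [sub_eq_zero]
  have hmemk : pt ((2 : ℝ) ^ k)⁻¹ 1 ∈ Om := Or.inr (by simp [pt])
  rw [← hpt k hk, hm, mul_comm N m]
  rw [hiter m _ (by rw [hm, mul_comm N m] at hmemk; exact hmemk)]

/-- **Theorem.** For `𝕂 = ℝ` or `ℂ` (any `RCLike` field) there are, for `d = 3`, a nonempty open set
`Ω ⊆ ℝ³`, a smooth function `w : Ω → 𝕂` and a smooth map `ψ : Ω → Ω` such that `C_{w,ψ}` is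
supercyclic on `C^∞(Ω, 𝕂)`, but not chaotic. -/
theorem result (𝕂 : Type) [RCLike 𝕂] :
    ∃ (Ω : Set (EuclideanSpace ℝ (Fin 3))) (w : EuclideanSpace ℝ (Fin 3) → 𝕂)
      (ψ : EuclideanSpace ℝ (Fin 3) → EuclideanSpace ℝ (Fin 3)),
      IsOpen Ω ∧ Ω.Nonempty ∧ ContDiffOn ℝ ∞ w Ω ∧ ContDiffOn ℝ ∞ ψ Ω ∧ MapsTo ψ Ω Ω ∧
      Supercyclic Ω (wco w ψ) ∧ ¬ Chaotic Ω (wco w ψ) := by
  refine ⟨Om, fun _ => 1, psi, isOpen_Om, ⟨pt 1 0, Or.inl (by simp [pt])⟩, contDiffOn_const,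
    contDiffOn_psi, mapsTo_psi, ?_, ?_⟩
  · have hc : (Omᶜ : Set (E 3)).Nonempty := ⟨0, by
      intro h
      rcases h with h | h
      · exact h rfl
      · exact h rfl⟩
    obtain ⟨g, hg, hd⟩ := hypercyclic_of_runaway (𝕂 := 𝕂) Om isOpen_Om hc psi phi contDiffOn_psi
      contDiffOn_phi mapsTo_psi mapsTo_phi (fun x _ => phi_psi x) runaway
    refine ⟨g, hg, ?_⟩
    intro f hf L hL hLΩ n ε hε
    obtain ⟨N, hN⟩ := hd f hf L hL hLΩ n ε hε
    refine ⟨N, 1, ?_⟩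
    rw [wco_iterate]
    simp only [one_mul]
    exact hN
  · rintro ⟨_, hper⟩
    -- the first coordinate cannot be approximated by periodic vectors
    have hf : (fun v : E 3 => ((v 0 : ℝ) : 𝕂)) ∈ CInf (𝕂 := 𝕂) Om := by
      have h1 : ContDiff ℝ ∞ fun v : E 3 => v 0 := by fun_prop
      exact ((RCLike.ofRealCLM (K := 𝕂)).contDiff.comp h1).contDiffOn
    have hmem1 : pt 0 1 ∈ Om := Or.inr (by simp [pt])
    have hmem2 : pt 1 0 ∈ Om := Or.inl (by simp [pt])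
    obtain ⟨g, hg, ⟨N, hN, hgN⟩, hnear⟩ := hper _ hf {pt 0 1, pt 1 0}
      ((Set.finite_singleton _).insert _).isCompact
      (by
        rintro x (rfl | rfl)
        · exact hmem1
        · exact hmem2) 0 (1 / 3) (by norm_num)
    rw [wco_iterate] at hgN
    have heq := periodic_eq g hg N hN hgN
    have h1 := hnear 0 le_rfl (fun i => i.elim0) (pt 0 1) (by simp)
    have h2 := hnear 0 le_rfl (fun i => i.elim0) (pt 1 0) (by simp)
    simp only [partialD, iteratedFDeriv_zero_apply] at h1 h2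
    rw [heq] at h1
    have c0 : (pt 0 1) 0 = 0 := by simp [pt]
    have c1 : (pt 1 0) 0 = 1 := by simp [pt]
    rw [c0] at h1
    rw [c1] at h2
    have h3 : ‖(1 : 𝕂)‖ ≤ ‖g (pt 1 0) - ((0 : ℝ) : 𝕂)‖ + ‖g (pt 1 0) - ((1 : ℝ) : 𝕂)‖ := by
      have : (1 : 𝕂) = (g (pt 1 0) - ((0 : ℝ) : 𝕂)) - (g (pt 1 0) - ((1 : ℝ) : 𝕂)) := by
        push_cast
        ring
      rw [this]
      exact norm_sub_le _ _
    rw [norm_one] at h3
    linarith

end Pool.Agent.Results.MP_fcbc3e_an.SupercyclicNotChaotic
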